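import Pool.Agent.Results.MP_dd84fd_nt.GoldbachDiscs

set_option autoImplicit false

/-!
# Twin irreducible polynomials at every scale, for almost all differences

The question in the polynomial ring over an arbitrary finite field with `q` elements: the monic
irreducible polynomials of degree `n` take the place of the primes of size `X = q ^ n`, and the
differences `h` have size `|h| < q ^ m`.  The number `n` of the scale runs over all of `m ≤ n ≤ N`,
`N` a power of `q ^ m`: the scales `X` from `q ^ m` to `exp ((q ^ m) ^ c)`.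
-/

namespace Pool.Agent.Results.MP_b51559_nt.EveryScale

open Polynomial Filter
open Pool.Agent.H341R2.Sharp (Mon mem_Mon)
open Pool.Agent.H523.FF (Ir mem_Ir PL mem_PL two_le_card)
open Pool.Agent.Results.MP_dd84fd_nt

open scoped Topology

/-- the number of the pairs `P, P + h` of irreducible polynomials, `P` monic of degree `n` -/
noncomputable def twins {F : Type} [Field F] (n : ℕ) (h : F[X]) : ℕ :=
  {P : F[X] | P.Monic ∧ P.natDegree = n ∧ Irreducible P ∧ Irreducible (P + h)}.ncard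

/-- the local factor: `1 + 1 / (|P| - 1)` if `P` divides `h`, and `1 - 1 / (|P| - 1) ^ 2` otherwise,
`|P| = q ^ deg P` -/
noncomputable def localFactor {F : Type} [Field F] [Fintype F] (h P : F[X]) : ℝ :=
  open scoped Classical in
  if P ∣ h then 1 + 1 / ((Fintype.card F : ℝ) ^ P.natDegree - 1)
  else 1 - 1 / ((Fintype.card F : ℝ) ^ P.natDegree - 1) ^ 2

/-- the product of the local factors over the monic irreducible polynomials of degree at most `y`;
its limit for `y → ∞` is the singular series of `h` -/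
noncomputable def partialProduct {F : Type} [Field F] [Fintype F] (h : F[X]) (y : ℕ) : ℝ :=
  ∏ᶠ P ∈ {P : F[X] | P.Monic ∧ Irreducible P ∧ P.natDegree ≤ y}, localFactor h P

/-- `h` is nonzero and not obstructed; an obstruction exists only over the field with two elements,
where `h` must be divisible by `X` and `X + 1` (the analogue of an even difference) -/
def Admissible {F : Type} [Field F] [Fintype F] (h : F[X]) : Prop :=
  h ≠ 0 ∧ (Fintype.card F = 2 → X ∣ h ∧ X + 1 ∣ h)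

lemma twins_eq {F : Type} [Field F] {n m : ℕ} (hmn : m ≤ n) {h : F[X]}
    (hh : h.degree < (m : WithBot ℕ)) : twins n h = GoldbachDiscs.reps (1 : F) (-1) n h := by
  unfold twins GoldbachDiscs.reps
  have hdeg : ∀ P : F[X], P.Monic → P.natDegree = n → h.degree < P.degree := by
    intro P h1 h2
    rw [degree_eq_natDegree h1.ne_zero, h2]
    exact lt_of_lt_of_le hh (by exact_mod_cast hmn)
  apply Set.ncard_congr (fun P _ => (P + h, P))
  · rintro P ⟨h1, h2, h3, h4⟩
    have h5 := hdeg P h1 h2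
    refine ⟨⟨?_, h4, ?_⟩, ⟨h1, h3, h2⟩, ?_⟩
    · exact h1.add_of_left h5
    · show (P + h).natDegree = n
      rw [natDegree_add_eq_left_of_degree_lt h5, h2]
    · show C 1 * (P + h) + C (-1) * P = h
      rw [C_neg, C_1]; ring
  · intro a b _ _ hab
    exact (Prod.ext_iff.mp hab).2
  · rintro ⟨f, g⟩ ⟨h1, h2, h3⟩
    have h4 : f = g + h := by
      rw [← h3]
      show f = g + (C 1 * f + C (-1) * g)
      rw [C_neg, C_1]; ring
    refine ⟨g, ⟨h2.1, h2.2.2, h2.2.1, ?_⟩, ?_⟩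
    · rw [← h4]; exact h1.2.1
    · rw [h4]

/-- **Twin irreducible polynomials at every scale.** There is an absolute constant `K` such that for
every finite field, all `1 ≤ m ≤ N` and `η > 0`: for all but at most `K N ^ 4 q ^ ((m + 1) / 2) / η ^ 2`
of the nonzero `h` of degree less than `m` the number of the twins of difference `h` of EVERY degree
`n`, `m ≤ n ≤ N`, differs from the Hardy-Littlewood value `S h * q ^ n / n ^ 2` by at most
`η q ^ n / n ^ 2`; and `1 / 9 ≤ S h` if `h` is admissible. -/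
theorem result : ∃ K : ℝ, ∀ (F : Type) [Field F] [Fintype F],
    ∃ S : F[X] → ℝ, (∀ h : F[X], h ≠ 0 → Tendsto (partialProduct h) atTop (𝓝 (S h))) ∧
      (∀ h : F[X], Admissible h → 1 / 9 ≤ S h) ∧
      ∀ (m N : ℕ), 1 ≤ m → m ≤ N → ∀ η : ℝ, 0 < η →
        ({h : F[X] | h ≠ 0 ∧ h.degree < (m : WithBot ℕ) ∧ ∃ n : ℕ, m ≤ n ∧ n ≤ N ∧
          η * (Fintype.card F : ℝ) ^ n / (n:ℝ) ^ 2 <
            |(twins n h : ℝ) - S h * (Fintype.card F : ℝ) ^ n / (n:ℝ) ^ 2|}.ncard : ℝ) ≤
          K * (N:ℝ) ^ 4 * (Fintype.card F : ℝ) ^ ((m + 1) / 2) / η ^ 2 := by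
  classical
  obtain ⟨K₀, hK₀⟩ := GoldbachDiscs.result
  refine ⟨max K₀ 0, fun F _ _ => ?_⟩
  have hq := two_le_card (F := F)
  have hpp : ∀ h : F[X], (partialProduct h : ℕ → ℝ) = GoldbachDiscs.partialProduct h := fun _ => rfl
  have hS0 : ∀ h : F[X], ∃ S : ℝ, h ≠ 0 → Tendsto (partialProduct h) atTop (𝓝 S) := by
    intro h
    by_cases hh : h = 0
    · exact ⟨0, fun h' => absurd hh h'⟩
    · obtain ⟨S, h1, -⟩ := hK₀ F 1 1 le_rfl le_rfl 1 (-1) one_ne_zero (neg_ne_zero.mpr one_ne_zero) 0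
        (by rw [add_neg_cancel, C_0, zero_mul, sub_zero, degree_zero]; exact WithBot.bot_lt_coe _)
      exact ⟨S h, fun _ => h1 h hh⟩
  choose S hS using hS0
  set q : ℝ := (Fintype.card F : ℝ) with hqd
  have hq0 : 0 < q := by linarith
  refine ⟨S, hS, ?_, ?_⟩
  · intro h hh
    obtain ⟨S', h1, h2, -⟩ := hK₀ F 1 1 le_rfl le_rfl 1 (-1) one_ne_zero
      (neg_ne_zero.mpr one_ne_zero) 0
      (by rw [add_neg_cancel, C_0, zero_mul, sub_zero, degree_zero]; exact WithBot.bot_lt_coe _)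
    have h3 : S h = S' h := tendsto_nhds_unique (hS h hh.1) (h1 h hh.1)
    rw [h3]
    exact h2 h hh
  intro m N hm hmN η hη
  -- one degree
  set E : ℕ → Finset F[X] := fun n => (PL F m).filter (fun h => h ≠ 0 ∧
    η * q ^ n / (n:ℝ) ^ 2 < |(twins n h : ℝ) - S h * q ^ n / (n:ℝ) ^ 2|) with hE
  have hone : ∀ n : ℕ, m ≤ n → n ≤ N → ((E n).card : ℝ) ≤
      max K₀ 0 * (N:ℝ) ^ 3 * q ^ ((m + 1) / 2) / η ^ 2 := by
    intro n hmn hnN
    have hnr : (0:ℝ) < n := by exact_mod_cast (by omega : 0 < n)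
    have hnN' : (n:ℝ) ≤ N := by exact_mod_cast hnN
    obtain ⟨S', h1, -, h3, -⟩ := hK₀ F n m (by omega) hmn 1 (-1) one_ne_zero
      (neg_ne_zero.mpr one_ne_zero) 0
      (by rw [add_neg_cancel, C_0, zero_mul, sub_zero, degree_zero]; exact WithBot.bot_lt_coe _)
    rw [← hqd] at h3
    have hset : {B : F[X] | (B - 0).degree < (m : WithBot ℕ) ∧ B ≠ 0} =
        (((PL F m).filter (fun h => h ≠ 0) : Finset F[X]) : Set F[X]) := by
      ext B
      rw [Set.mem_ofPred_eq, Finset.mem_coe, Finset.mem_filter, mem_PL, sub_zero]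
    rw [hset, finsum_mem_coe_finset] at h3
    have h4 : ∀ h ∈ (PL F m).filter (fun h => h ≠ 0),
        ((n:ℝ) ^ 2 * (GoldbachDiscs.reps (1:F) (-1) n h : ℝ) - S' h * q ^ n) ^ 2 =
        ((n:ℝ) ^ 2 * (twins n h : ℝ) - S h * q ^ n) ^ 2 := by
      intro h hh
      rw [Finset.mem_filter, mem_PL] at hh
      have e1 : S h = S' h := tendsto_nhds_unique (hS h hh.2) (h1 h hh.2)
      rw [e1, twins_eq hmn hh.1]
    rw [Finset.sum_congr rfl h4] at h3
    have h5 : ((E n).card : ℝ) * (η * q ^ n) ^ 2 ≤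
        K₀ * (n:ℝ) ^ 3 * (q ^ n) ^ 2 * q ^ ((m + 1) / 2) := by
      refine le_trans ?_ h3
      rw [← nsmul_eq_mul, ← Finset.sum_const]
      calc ∑ _h ∈ E n, (η * q ^ n) ^ 2
          ≤ ∑ h ∈ E n, ((n:ℝ) ^ 2 * (twins n h : ℝ) - S h * q ^ n) ^ 2 := by
            refine Finset.sum_le_sum (fun h hh => ?_)
            rw [hE, Finset.mem_filter] at hh
            have h6 := hh.2.2
            have h7 : (n:ℝ) ^ 2 * (twins n h : ℝ) - S h * q ^ n =
                (n:ℝ) ^ 2 * ((twins n h : ℝ) - S h * q ^ n / (n:ℝ) ^ 2) := by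
              field_simp
            have h8 : η * q ^ n ≤ |(n:ℝ) ^ 2 * (twins n h : ℝ) - S h * q ^ n| := by
              rw [h7, abs_mul, abs_of_pos (by positivity : (0:ℝ) < (n:ℝ) ^ 2)]
              rw [div_lt_iff₀ (by positivity)] at h6
              linarith
            calc (η * q ^ n) ^ 2 ≤ |(n:ℝ) ^ 2 * (twins n h : ℝ) - S h * q ^ n| ^ 2 :=
                  pow_le_pow_left₀ (by positivity) h8 2
              _ = _ := sq_abs _
        _ ≤ _ := by
            apply Finset.sum_le_sum_of_subset_of_nonneg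
            · intro h hh
              rw [hE, Finset.mem_filter] at hh
              rw [Finset.mem_filter]
              exact ⟨hh.1, hh.2.1⟩
            · intro _ _ _
              exact sq_nonneg _
    have h9 : 0 < (η * q ^ n) ^ 2 := by positivity
    rw [← le_div_iff₀ h9] at h5
    refine h5.trans ?_
    have h10 : K₀ * (n:ℝ) ^ 3 * (q ^ n) ^ 2 * q ^ ((m + 1) / 2) / (η * q ^ n) ^ 2 =
        K₀ * ((n:ℝ) ^ 3 * (q ^ ((m + 1) / 2) / η ^ 2)) := by
      field_simp
    rw [h10]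
    have h11 : max K₀ 0 * (N:ℝ) ^ 3 * q ^ ((m + 1) / 2) / η ^ 2 =
        max K₀ 0 * ((N:ℝ) ^ 3 * (q ^ ((m + 1) / 2) / η ^ 2)) := by ring
    rw [h11]
    have h12 : 0 ≤ q ^ ((m + 1) / 2) / η ^ 2 := by positivity
    have h13 : (n:ℝ) ^ 3 ≤ (N:ℝ) ^ 3 := pow_le_pow_left₀ hnr.le hnN' 3
    calc K₀ * ((n:ℝ) ^ 3 * (q ^ ((m + 1) / 2) / η ^ 2))
        ≤ max K₀ 0 * ((n:ℝ) ^ 3 * (q ^ ((m + 1) / 2) / η ^ 2)) :=
          mul_le_mul_of_nonneg_right (le_max_left _ _) (by positivity)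
      _ ≤ _ := mul_le_mul_of_nonneg_left (mul_le_mul_of_nonneg_right h13 h12) (le_max_right _ _)
  -- all degrees
  have hcov : {h : F[X] | h ≠ 0 ∧ h.degree < (m : WithBot ℕ) ∧ ∃ n : ℕ, m ≤ n ∧ n ≤ N ∧
      η * q ^ n / (n:ℝ) ^ 2 < |(twins n h : ℝ) - S h * q ^ n / (n:ℝ) ^ 2|} ⊆
      (((Finset.Icc m N).biUnion E : Finset F[X]) : Set F[X]) := by
    rintro h ⟨h1, h2, n, h3, h4, h5⟩
    rw [Finset.mem_coe, Finset.mem_biUnion]
    refine ⟨n, Finset.mem_Icc.mpr ⟨h3, h4⟩, ?_⟩
    rw [hE, Finset.mem_filter, mem_PL]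
    exact ⟨h2, h1, h5⟩
  have hle := Set.ncard_le_ncard hcov (Finset.finite_toSet _)
  rw [Set.ncard_coe_finset] at hle
  have hcard : (((Finset.Icc m N).biUnion E).card : ℝ) ≤
      N * (max K₀ 0 * (N:ℝ) ^ 3 * q ^ ((m + 1) / 2) / η ^ 2) := by
    calc (((Finset.Icc m N).biUnion E).card : ℝ) ≤ ∑ n ∈ Finset.Icc m N, ((E n).card : ℝ) := by
          exact_mod_cast Finset.card_biUnion_le
      _ ≤ ∑ _n ∈ Finset.Icc m N, max K₀ 0 * (N:ℝ) ^ 3 * q ^ ((m + 1) / 2) / η ^ 2 := by
          refine Finset.sum_le_sum (fun n hn => ?_)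
          rw [Finset.mem_Icc] at hn
          exact hone n hn.1 hn.2
      _ ≤ _ := by
          rw [Finset.sum_const, nsmul_eq_mul]
          apply mul_le_mul_of_nonneg_right
          · rw [Nat.card_Icc]
            exact_mod_cast (by omega : N + 1 - m ≤ N)
          · have : (0:ℝ) ≤ max K₀ 0 := le_max_right _ _
            positivity
  have hfin : ((Set.ncard {h : F[X] | h ≠ 0 ∧ h.degree < (m : WithBot ℕ) ∧ ∃ n : ℕ, m ≤ n ∧ n ≤ N ∧
      η * q ^ n / (n:ℝ) ^ 2 < |(twins n h : ℝ) - S h * q ^ n / (n:ℝ) ^ 2|} : ℕ) : ℝ) ≤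
      (((Finset.Icc m N).biUnion E).card : ℝ) := by exact_mod_cast hle
  refine (hfin.trans hcard).trans (le_of_eq ?_)
  ring

end Pool.Agent.Results.MP_b51559_nt.EveryScale
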