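import Mathlib
import Pool.Agent.H534.NW.MissW

/-!
# Almost twin primes, and their bounded clusters, at all the places of every narrow shape

`6 m - 1`, `6 m + 1` are twin primes if both are prime; `m` gives an almost twin at height `x` if `6 m - 1` is
prime and `6 m + 1` has at most `s` prime factors, all larger than `x ^ η`; in (2) these are at most three
prime factors larger than `x ^ (1 / 5)`.  For EVERY shape `b_1, ..., b_k` (no exceptions) and a positive
proportion of the multiples `D = W d`, `d ≤ X`, for all `X` from a power of `log x` up to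
`(x / (W b_j)) ^ (1 / 3)`, the integers `m, m + D b_1, ..., m + D b_k` are simultaneously almost twin for as
many `m` as expected, up to a constant; the same is true inside every set of positive relative density, hence
also for the twin primes themselves if there are as many of them as expected; and also for the bounded
clusters of `j` almost twin integers in place of the almost twin integers: here the pattern of the
cluster depends on `x` only, and not on the shape.
The modulus `W = WS σ b x` is small: it is the product of the primes `p ≤ (log x) ^ (1 - σ)` such that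
`p ≤ log log x` or two of the numbers `0, b_1, ..., b_k` are congruent modulo `p`.  So for fixed (or bounded)
`b` all `D` below a fixed power of `log x` can be had, and for all shapes with `b_j ≤ x ^ (1 - o(1))` differences
`D = x ^ o(1)`.

Proof.  `Pool.Agent.H534.NW`: the relative multidimensional Szemerédi theorem for shapes of polynomial size,
by densification and the linear forms conditions for a majorant of Selberg type; since `W` is free of most
primes, the correlations are only controlled outside of few positions, by a large deviation inequality for the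
primes dividing collisions.  It is applied to the rough values of products of linear forms, and to the clusters
of primes with almost prime companions of the library (a Maynard-Tao theorem).
-/

set_option autoImplicit false

open Finset Filter

namespace Pool.Agent.Results.MP_b51559_nt.EveryShapeOfTwins

open Pool.Agent.H534.NW (WS Shapes)

/-- `6 m - 1` is prime and `6 m + 1` has at most `s` prime factors (with multiplicity), all of them
larger than `x ^ η`. -/
def AlmostTwin (s : ℕ) (η : ℝ) (x m : ℕ) : Prop :=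
  (6 * m - 1).Prime ∧ (6 * m + 1).primeFactorsList.length ≤ s ∧
    ∀ p : ℕ, p.Prime → p ∣ 6 * m + 1 → (x : ℝ) ^ η < (p : ℝ)

open Classical in
/-- the almost twin integers of `(x, 2 x]` with at most three prime factors of `6 m + 1` -/
noncomputable def Am3 (x : ℕ) : Finset ℕ := (Ioc x (2 * x)).filter (AlmostTwin 3 (1 / 5) x)

open Classical in
/-- the `m ≤ x` such that `m + q` is almost twin for all `q` in `Q` -/
noncomputable def Clusters (r x : ℕ) (Q : Finset ℕ) : Finset ℕ :=
  (Icc 1 x).filter (fun m => ∀ q ∈ Q, AlmostTwin r (1 / r) x (m + q))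

/-- **Every narrow shape.**  `Shapes k s c σ L x A`: for every `X ≥ (log x) ^ L` and ALL distinct
`b_1, ..., b_k ≥ 1` with `b_j W X ^ 3 ≤ x`, `W = WS σ b x`, at least `c X` of the `d ≤ X` are such that for at least
`c x / (log x) ^ (s (k + 1))` elements `m` of `A` all the `m + W d b_j` are elements of `A`.
(1) Every set `A` of at least `κ H / (log H) ^ 2` integers `m` in `(Y, Y + H]`, `Y ≤ H ^ g`, such that `6 m - 1` and
`6 m + 1` have no prime factor `≤ H ^ η` has the property `Shapes k 2 c σ L H`.
(2) For large `x` every subset `A` of positive relative density `κ` of the set of the integers `m` of `(x, 2 x]`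
such that `6 m - 1` is prime and `6 m + 1` has at most three prime factors, all of them larger than `x ^ (1 / 5)`, has
the property `Shapes k 2 c σ L x`; this set has at least `c₀ x / (log x) ^ 2` elements.
(3) For every `j ≥ 1` there are `r`, `C`, `B` and sets `Q x` of `j` integers `< C` such that for all `k ≥ 1` the set of the
`m ≤ x` for which all the `m + q`, `q ∈ Q x`, are almost twin has the property `Shapes k B c σ L x` for large
`x`. -/
theorem result :
    (∀ (k g : ℕ) (η κ : ℝ), 1 ≤ k → 0 < η → 0 < κ →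
      ∃ c σ : ℝ, 0 < c ∧ 0 < σ ∧ σ ≤ 1 / 2 ∧ ∃ L H₀ : ℕ,
      ∀ (Y H : ℕ) (A : Finset ℕ), H₀ ≤ H → Y ≤ H ^ g → A ⊆ Ioc Y (Y + H) →
      (∀ m ∈ A, ∀ p : ℕ, p.Prime → (p : ℝ) ≤ (H : ℝ) ^ η → ¬ p ∣ 6 * m - 1 ∧ ¬ p ∣ 6 * m + 1) →
      κ * (H / Real.log H ^ 2) ≤ A.card → Shapes k 2 c σ L H A) ∧
    ((∃ c₀ : ℝ, 0 < c₀ ∧ ∀ᶠ x : ℕ in atTop, c₀ * (x / Real.log x ^ 2) ≤ (Am3 x).card) ∧
      ∀ (k : ℕ) (κ : ℝ), 1 ≤ k → 0 < κ →
      ∃ c σ : ℝ, 0 < c ∧ 0 < σ ∧ σ ≤ 1 / 2 ∧ ∃ L : ℕ, ∀ᶠ x : ℕ in atTop,
      ∀ A ⊆ Am3 x, κ * ((Am3 x).card : ℝ) ≤ A.card → Shapes k 2 c σ L x A) ∧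
    (∀ j : ℕ, 1 ≤ j → ∃ (r C B : ℕ) (Q : ℕ → Finset ℕ),
      (∀ᶠ x in atTop, (Q x).card = j ∧ Q x ⊆ range C) ∧ ∀ k : ℕ, 1 ≤ k →
      ∃ c σ : ℝ, 0 < c ∧ 0 < σ ∧ σ ≤ 1 / 2 ∧ ∃ L : ℕ, ∀ᶠ x : ℕ in atTop,
      Shapes k B c σ L x (Clusters r x (Q x))) := by
  classical
  refine ⟨fun k g η κ hk hη hκ => ?_, ⟨?_, fun k κ hk hκ => ?_⟩, fun j hj => ?_⟩
  · obtain ⟨c, σm, hc, hσm, hσm2, h⟩ := Pool.Agent.H534.NW.missAW k g η κ hk hη hκ
    obtain ⟨L, H₀, h⟩ := h σm hσm le_rfl
    exact ⟨c, σm, hc, hσm, hσm2, L, H₀, h⟩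
  · obtain ⟨κ, hκ, h⟩ := Pool.Agent.H534.RT.many3
    refine ⟨κ, hκ, ?_⟩
    filter_upwards [h] with x hx
    refine hx.trans ?_
    apply Nat.cast_le.2
    apply card_le_card
    intro m hm
    unfold Am3
    rw [mem_filter] at hm ⊢
    exact ⟨hm.1, hm.2⟩
  · obtain ⟨c, σm, hc, hσm, hσm2, h⟩ := Pool.Agent.H534.NW.missBW k κ hk hκ
    obtain ⟨L, h⟩ := h σm hσm le_rfl
    refine ⟨c, σm, hc, hσm, hσm2, L, ?_⟩
    filter_upwards [h] with x hx A hA hAc
    have e : Am3 x = (Ioc x (2 * x)).filter (Pool.Agent.H534.RT.M3 x) := by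
      unfold Am3
      apply filter_congr
      intro m _
      rfl
    rw [e] at hA hAc
    exact hx A hA hAc
  · obtain ⟨r, C, B, Q, hQ, h⟩ := Pool.Agent.H534.NW.missCW j hj
    refine ⟨r, C, B, Q, hQ, fun k hk => ?_⟩
    obtain ⟨c, σm, hc, hσm, hσm2, h⟩ := h k hk
    obtain ⟨L, h⟩ := h σm hσm le_rfl
    refine ⟨c, σm, hc, hσm, hσm2, L, ?_⟩
    filter_upwards [h, eventually_ge_atTop 3] with x hx hx3
    refine hx.mono hx3 le_rfl le_rfl (fun m hm => ?_)
    unfold Clusters
    rw [mem_filter] at hm ⊢
    exact ⟨hm.1, fun q hq => hm.2 q hq⟩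

end Pool.Agent.Results.MP_b51559_nt.EveryShapeOfTwins
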