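import Pool.Agent.H679.DC.Tw

/-!
# Almost prime twins with prescribed digit sums in the interval `(n + 4, 2 ^ (n + 4))`

Base `2`: for all large `n` and for EVERY pair `(k, l)` of possible values, `ε n ≤ k ≤ (1 - ε) n` and
`k - ε n / 4 ≤ l ≤ k + 1`, the interval `(n + 4, 2 ^ (n + 4))` contains almost prime twins `m`, `m + 2` such that the
sum of the binary digits of `m` is exactly `k` and the sum of the binary digits of `m + 2` is exactly `l`, in the
expected number up to a constant factor. (For odd `m` one has `l ≤ k + 1`.)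

General base `b`: let `N` be any integer, and let us permute the digits of `N` in a window of `L` places in all possible
ways. The same is true for the integers `m` which we obtain in this way, as soon as two consecutive digits both occur at
least `ε L` times in the window and `N (N + 2)` is coprime to `b (b - 1)`. (Permuting digits changes `m` neither modulo
`b - 1` nor, as the window does not contain the last digit, modulo `b`.) These sets are small (a power
`x ^ c`, with `c < 1`, of the size `x` of their elements, in general), and they have no product structure.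
-/

set_option autoImplicit false

namespace Pool.Agent.Results.MP_b51559_nt.PermutedDigits

open Filter

/-- the number of the places `t ≤ i < t + L` at which the digit of `N` in base `b` is `c` -/
def cw (b t L N c : ℕ) : ℕ := ((Finset.range L).filter (fun i => N / b ^ (t + i) % b = c)).card

/-- the integers which arise from `N` by permuting the digits at the places `t ≤ i < t + L` -/
def Ana (b t L N : ℕ) : Set ℕ :=
  {m | m % b ^ t = N % b ^ t ∧ m / b ^ (t + L) = N / b ^ (t + L) ∧ ∀ c, cw b t L m c = cw b t L N c}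

/-- two consecutive digits occur at least `ε L` times in the window -/
def Rich (b : ℕ) (ε : ℝ) (t L N : ℕ) : Prop := ∃ d : ℕ, d + 1 < b ∧ ε * L ≤ cw b t L N d ∧ ε * L ≤ cw b t L N (d + 1)

/-- `m` and `m + 2` have at most `r` prime factors, counted with multiplicity, all of them greater than
`Y ^ (1 / r)` -/
def AlmostTwin (Y r m : ℕ) : Prop := (∀ p : ℕ, p.Prime → p ∣ m ∨ p ∣ m + 2 → Y < p ^ r) ∧
  m.primeFactorsList.length ≤ r ∧ (m + 2).primeFactorsList.length ≤ r

/-- the sum of the binary digits -/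
def s2 (m : ℕ) : ℕ := (Nat.digits 2 m).sum

/-- the odd `m < 2 ^ K` for which the sum of the binary digits of `m` is `k` and that of `m + 2` is `l` -/
def Sums (K k l : ℕ) : Set ℕ := {m | Odd m ∧ m < 2 ^ K ∧ s2 m = k ∧ s2 (m + 2) = l}

/-- **Almost prime twins with permuted digits, and with prescribed digit sums.** -/
theorem result :
    (∀ b : ℕ, 2 ≤ b → ∀ ε : ℝ, 0 < ε → ε ≤ 1 → ∀ D : ℕ, ∃ r : ℕ, ∃ κ C : ℝ, 0 < κ ∧ 0 < C ∧
      ∀ᶠ L : ℕ in atTop, ∀ t N : ℕ, 1 ≤ t → t ≤ D * L → N ≤ b ^ (D * L) → Rich b ε t L N →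
        N.Coprime (b * (b - 1)) → (N + 2).Coprime (b * (b - 1)) →
        0 < (Ana b t L N).ncard ∧
        κ * (Ana b t L N).ncard / (L : ℝ) ^ 2 ≤ (Set.ncard {m | m ∈ Ana b t L N ∧ AlmostTwin (b ^ L) r m} : ℝ) ∧
        (Set.ncard {m | m ∈ Ana b t L N ∧ m.Prime ∧ (m + 2).Prime} : ℝ) ≤ C * (Ana b t L N).ncard / (L : ℝ) ^ 2) ∧
    (∀ ε : ℝ, 0 < ε → ε ≤ 1 → ∃ r : ℕ, ∃ κ C : ℝ, 0 < κ ∧ 0 < C ∧
      ∀ᶠ n : ℕ in atTop, ∀ k l : ℕ, ε * n ≤ k → (k : ℝ) ≤ (1 - ε) * n → l ≤ k + 1 → (k : ℝ) ≤ l + ε / 4 * n →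
        0 < (Sums (n + 4) k l).ncard ∧
        κ * (Sums (n + 4) k l).ncard / (n : ℝ) ^ 2 ≤
          (Set.ncard {m | (n + 4 < m ∧ m < 2 ^ (n + 4)) ∧ s2 m = k ∧ s2 (m + 2) = l ∧
            AlmostTwin (2 ^ (n + 4)) r m} : ℝ) ∧
        (Set.ncard {m | (n + 4 < m ∧ m < 2 ^ (n + 4)) ∧ s2 m = k ∧ s2 (m + 2) = l ∧ m.Prime ∧ (m + 2).Prime} : ℝ) ≤
          C * (Sums (n + 4) k l).ncard / (n : ℝ) ^ 2) := by
  refine ⟨fun b hb ε hε hε1 D => ?_, fun ε hε hε1 => ?_⟩
  · obtain ⟨r, -, κ, C, hκ, hC, h⟩ := Pool.Agent.H679.DC.twins hb hε hε1 D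
    exact ⟨r, κ, C, hκ, hC, h⟩
  · obtain ⟨r, -, κ, C, hκ, hC, h⟩ := Pool.Agent.H679.DC.bin_twins ε hε hε1
    exact ⟨r, κ, C, hκ, hC, h⟩

end Pool.Agent.Results.MP_b51559_nt.PermutedDigits
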