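import Mathlib
import Pool.Agent.H529.G.Final
import Pool.Agent.H764.F.GapsInterval210

/-!
# Prime gaps at most 210 in the intervals of Davis, Matiyasevich and Robinson

With twin primes replaced by consecutive primes at distance at most `210` the assertion holds for all large
`n`, in the much shorter intervals `(n + 4, (n + 4) ^ (1 + ε))`, and with almost the best possible number of
gaps. (From `DHL[44,2]`, `Pool.Agent.H529.G.dhl44`.)
-/

set_option autoImplicit false

open Filter

namespace Pool.Agent.Results.MP_b51559_nt.ShortGaps210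

/-- `p` is a prime and the next prime is at most `p + 210` -/
def Short (p : ℕ) : Prop :=
  p.Prime ∧ ∃ q : ℕ, q.Prime ∧ p < q ∧ q ≤ p + 210 ∧ ∀ r : ℕ, p < r → r < q → ¬ r.Prime

/-- `Short p` says that `p` is prime and that the next prime `q` satisfies `q ≤ p + 210`.
(1) For all `0 < η < ε` and all large `n` there are at least `(n + 4) ^ (1 + η)` primes `p` with
`Short p`, `n + 4 < p` and `p + 210 < (n + 4) ^ (1 + ε)`; in particular `p` and the next prime lie
in the interval `(n + 4, (n + 4) ^ (1 + ε))`.  (2) For every `ε > 0` and all large `n` there are at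
least `2 ^ ((1 - ε) (n + 4))` primes `p` with `Short p`, `n + 4 < p` and `p + 210 < 2 ^ (n + 4)`. -/
theorem result :
    (∀ ε η : ℝ, 0 < η → η < ε → ∀ᶠ n : ℕ in atTop,
      ((n : ℝ) + 4) ^ (1 + η) ≤ (Set.ncard {p : ℕ | n + 4 < p ∧
        (p : ℝ) + 210 < ((n : ℝ) + 4) ^ (1 + ε) ∧ Short p} : ℝ)) ∧
    (∀ ε : ℝ, 0 < ε → ∀ᶠ n : ℕ in atTop,
      (2 : ℝ) ^ ((1 - ε) * ((n : ℝ) + 4)) ≤ (Set.ncard {p : ℕ | n + 4 < p ∧
        p + 210 < 2 ^ (n + 4) ∧ Short p} : ℝ)) :=
  Pool.Agent.H764.F.GapsInterval210.shortGaps210 Pool.Agent.H529.G.dhl44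

end Pool.Agent.Results.MP_b51559_nt.ShortGaps210
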